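import Pool.Agent.Lib.MP_50bb2e_nt.MT.H57.Twr

/-!
The tower criterion in the form: one twist of every coset suffices.
-/

open NumberField IsDedekindDomain Filter Topology

namespace Pool.Agent.Lib.MP_50bb2e_nt.MT.H74

open Pool.Agent.Lib.MP_50bb2e_nt.MT.H57

/-- One twist of small order in almost all cosets `q <psi_0, ..., psi_(k-1)>` suffices. -/
theorem one (h1 : SeqS) (h2 : DenS) (F : Type) [Field F] [NumberField F] (o : Quad F → ℕ) (r : ℕ)
    (R : Rule F) :
    D o r ↔ ∀ psi : ℕ → Quad F, Obeys R psi → ∃ k : ℕ, DensityOne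
      {q | ∃ I ∈ (Finset.range k).powerset, o (q * ∏ i ∈ I, psi i) < r}
      (Set.univ : Set (Quad F)) := by
  constructor
  · intro hD psi _
    refine ⟨0, ?_⟩
    have h3 : {q : Quad F | ∃ I ∈ (Finset.range 0).powerset, o (q * ∏ i ∈ I, psi i) < r} =
        {q | o q < r} := by
      ext q
      simp
    rw [h3]
    exact hD
  · intro hall
    by_contra hD
    obtain ⟨d1, _, _⟩ := h2 F
    have hE : PosUpper {q : Quad F | o q < r}ᶜ := by
      by_contra h
      exact hD ((d1 _).2 h)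
    obtain ⟨psi, hpsi, hk⟩ := h1 F _ hE R
    obtain ⟨k, hk'⟩ := hall psi hpsi
    refine (d1 _).1 hk' (posUpper_mono h2 ?_ (hk k))
    intro q hq
    simp only [Set.mem_compl_iff, Set.mem_ofPred_eq, not_lt] at hq ⊢
    rintro ⟨I, hI, hI'⟩
    exact absurd (hq I hI) (not_le.2 hI')

end Pool.Agent.Lib.MP_50bb2e_nt.MT.H74
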