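import Pool.Agent.Lib.MP_50bb2e_nt.MT.Iface

open NumberField IsDedekindDomain Filter Topology

namespace Pool.Agent.Lib.MP_50bb2e_nt.MT.H74

open scoped Classical in
/-- pigeonhole over the unbounded set of scales -/
theorem pigeon {ι : Type} (Y : Finset ι) (f : ι → ℝ → ℝ) (c : ℝ) (hc : 0 < c)
    (h : ∃ᶠ X : ℝ in atTop, c * X ≤ ∑ i ∈ Y, f i X) :
    ∃ i ∈ Y, ∃ d : ℝ, 0 < d ∧ ∃ᶠ X : ℝ in atTop, d * X ≤ f i X := by
  have hY : Y.Nonempty := by
    rw [Finset.nonempty_iff_ne_empty]
    rintro rfl
    have h1 : ∀ᶠ X : ℝ in atTop, ¬ (c * X ≤ ∑ i ∈ (∅ : Finset ι), f i X) := by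
      filter_upwards [eventually_gt_atTop 0] with X hX
      simp only [Finset.sum_empty, not_le]
      positivity
    exact h h1
  have hn : (0 : ℝ) < (Y.card : ℝ) := by exact_mod_cast hY.card_pos
  by_contra hcon
  push Not at hcon
  have h2 : ∀ i ∈ Y, ∀ᶠ X : ℝ in atTop, f i X < c / Y.card * X := by
    intro i hi
    have := hcon i hi (c / Y.card) (by positivity)
    simpa [Filter.not_frequently, not_le] using this
  have h3 : ∀ᶠ X : ℝ in atTop, ∀ i ∈ Y, f i X < c / Y.card * X :=
    (Finset.eventually_all Y).2 h2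
  refine h ?_
  filter_upwards [h3] with X hX
  rw [not_le]
  calc ∑ i ∈ Y, f i X < ∑ _i ∈ Y, c / Y.card * X := Finset.sum_lt_sum_of_nonempty hY hX
    _ = c * X := by
      rw [Finset.sum_const, nsmul_eq_mul]
      field_simp

section

variable {F : Type} [Field F] [NumberField F]

theorem finite_cond (h2 : FcnS) (h4 : KfiS) (h5 : CndS) (X : ℝ) :
    {q : Quad F | (condNorm q : ℝ) ≤ X}.Finite := by
  obtain ⟨⟨C, hC1, hC⟩, -, -⟩ := h5 F
  obtain ⟨hfin, -⟩ := h2 F
  obtain ⟨K, -, hK⟩ := h4 F
  have hsub : {q : Quad F | (condNorm q : ℝ) ≤ X} ⊆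
      ⋃ s ∈ {s : Finset (Pr F) | (nrm s : ℝ) ≤ C * X}, {q : Quad F | sp q = s} := by
    intro q hq
    simp only [Set.mem_iUnion]
    refine ⟨sp q, ?_, rfl⟩
    have h6 : (condNorm q : ℝ) ≤ X := hq
    have h7 := (hC q).1
    show (nrm (sp q) : ℝ) ≤ C * X
    exact h7.trans (mul_le_mul_of_nonneg_left h6 (by linarith))
  exact ((hfin (C * X)).biUnion fun s _ => (hK s).1).subset hsub

end

open scoped Classical in
theorem step (h1 : OrdS) (h2 : FcnS) (h3 : Sv2S) (h4 : KfiS) (h5 : CndS) : StepS := by
  intro F _ _ E hE Q hQ B hB H hH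
  obtain ⟨c, hc, hfr⟩ := hE
  have hfc := fun X : ℝ => finite_cond (F := F) h2 h4 h5 X
  obtain ⟨⟨C, hC1, hC⟩, -, -⟩ := h5 F
  obtain ⟨hfin, C', hC'pos, hC'⟩ := h2 F
  obtain ⟨K, hKpos, hK⟩ := h4 F
  obtain ⟨-, hsp, hmul, hsq⟩ := h1 F
  have hCpos : 0 < C := by linarith
  have : Fintype (Quad F ⧸ H) := Fintype.ofFinite _
  obtain ⟨m, hm⟩ : ∃ m : ℕ, m = Fintype.card (Quad F ⧸ H) := ⟨_, rfl⟩
  have hmpos : 0 < m := by rw [hm]; exact Fintype.card_pos
  have hK0 : (0 : ℝ) < K := by exact_mod_cast hKpos
  have hm0 : (0 : ℝ) < m := by exact_mod_cast hmpos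
  -- constants
  obtain ⟨R, hR⟩ : ∃ R : ℝ, R = 4 * (K * m * C' * C) / c + 1 := ⟨_, rfl⟩
  have hRpos : 0 < R := by rw [hR]; positivity
  have hRc : K * (m * (C' * (C / R))) ≤ c / 4 := by
    have h6 : 4 * (K * m * C' * C) / c ≤ R := by rw [hR]; linarith
    have h7 : 4 * (K * m * C' * C) ≤ R * c := by rwa [div_le_iff₀ hc] at h6
    have h8 : K * (m * (C' * (C / R))) = (K * m * C' * C) / R := by ring
    rw [h8, div_le_iff₀ hRpos]
    linarith
  obtain ⟨e, he⟩ : ∃ e : ℝ, e = c / (4 * (K * C)) := ⟨_, rfl⟩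
  have hepos : 0 < e := by rw [he]; positivity
  have hec : K * (e * C) = c / 4 := by
    rw [he]; field_simp
  obtain ⟨P, hP, hPs⟩ := h3 F Q hQ B hB R e hepos
  -- the finite set of psi
  obtain ⟨Y, hY⟩ : ∃ Y : Finset (Quad F), ∀ psi, psi ∈ Y ↔ psi ∈ H ∧ ∃ v ∈ P, ∃ w ∈ P, v ≠ w ∧
      sp psi = {v, w} := by
    have hf : {psi : Quad F | psi ∈ H ∧ ∃ v ∈ P, ∃ w ∈ P, v ≠ w ∧ sp psi = {v, w}}.Finite := by
      have hsub : {psi : Quad F | psi ∈ H ∧ ∃ v ∈ P, ∃ w ∈ P, v ≠ w ∧ sp psi = {v, w}} ⊆
          ⋃ s ∈ (P.powerset : Set (Finset (Pr F))), {q : Quad F | sp q = s} := by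
        rintro psi ⟨-, v, hv, w, hw, -, hvw⟩
        simp only [Set.mem_iUnion]
        refine ⟨sp psi, ?_, rfl⟩
        rw [hvw]
        simp only [Finset.coe_powerset, Set.mem_preimage, Set.mem_powerset_iff, Finset.coe_subset]
        intro x hx
        simp only [Finset.mem_insert, Finset.mem_singleton] at hx
        rcases hx with rfl | rfl <;> assumption
      exact ((Finset.finite_toSet _).biUnion fun s _ => (hK s).1).subset hsub
    exact ⟨hf.toFinset, fun psi => by simp⟩
  -- the main inequality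
  have key : ∀ᶠ X : ℝ in atTop, (count E X : ℝ) ≤ c / 2 * X +
      ∑ psi ∈ Y, (count {q : Quad F | q ∈ E ∧ q * psi ∈ E} X : ℝ) := by
    have hPs' : ∀ᶠ X : ℝ in atTop,
        (({s : Finset (Pr F) | (nrm s : ℝ) ≤ C * X ∧ ∀ v ∈ P, v ∉ s}).ncard : ℝ) ≤ e * (C * X) :=
      (tendsto_id.const_mul_atTop hCpos).eventually hPs
    filter_upwards [hPs', eventually_ge_atTop 0] with X hX1 hX0
    -- finsets
    have hTf : {q : Quad F | q ∈ E ∧ (condNorm q : ℝ) ≤ X}.Finite :=
      (hfc X).subset fun q hq => hq.2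
    obtain ⟨T, hT⟩ : ∃ T : Finset (Quad F), ∀ q, q ∈ T ↔ q ∈ E ∧ (condNorm q : ℝ) ≤ X :=
      ⟨hTf.toFinset, fun q => by simp⟩
    have hTcard : count E X = T.card := by
      unfold count
      have : {q : Quad F | q ∈ E ∧ (condNorm q : ℝ) ≤ X} = (T : Set (Quad F)) := by
        ext q; simp [hT]
      rw [this, Set.ncard_coe_finset]
    -- bad elements
    obtain ⟨T1, hT1⟩ : ∃ T1 : Finset (Quad F), T1 = T.filter (fun q => ∀ v ∈ P, v ∉ sp q) :=
      ⟨_, rfl⟩
    obtain ⟨T2, hT2⟩ : ∃ T2 : Finset (Quad F), T2 = T.filter (fun q => ¬ ∀ v ∈ P, v ∉ sp q) :=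
      ⟨_, rfl⟩
    have hsplit : T.card = T1.card + T2.card := by
      rw [hT1, hT2, Finset.card_filter_add_card_filter_not]
    have hfib : ∀ (U : Finset (Quad F)) (s : Finset (Pr F)), (U.filter (fun q => sp q = s)).card ≤ K := by
      intro U s
      have h6 : ((U.filter (fun q => sp q = s) : Finset (Quad F)) : Set (Quad F)) ⊆
          {q : Quad F | sp q = s} := by
        intro q hq
        simp only [Finset.coe_filter, Set.mem_ofPred_eq] at hq
        exact hq.2
      calc (U.filter (fun q => sp q = s)).card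
          = ((U.filter (fun q => sp q = s) : Finset (Quad F)) : Set (Quad F)).ncard :=
            (Set.ncard_coe_finset _).symm
        _ ≤ ({q : Quad F | sp q = s}).ncard := Set.ncard_le_ncard h6 (hK s).1
        _ ≤ K := (hK s).2
    have hb1 : (T1.card : ℝ) ≤ c / 4 * X := by
      have h6 : T1.card ≤ K * (T1.image sp).card :=
        Finset.card_le_mul_card_image T1 K fun s _ => hfib T1 s
      have h7 : (T1.image sp).card ≤
          ({s : Finset (Pr F) | (nrm s : ℝ) ≤ C * X ∧ ∀ v ∈ P, v ∉ s}).ncard := by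
        rw [← Set.ncard_coe_finset]
        refine Set.ncard_le_ncard ?_ ((hfin (C * X)).subset fun s hs => hs.1)
        intro s hs
        simp only [Finset.coe_image, Set.mem_image, Finset.mem_coe] at hs
        obtain ⟨q, hq, rfl⟩ := hs
        rw [hT1, Finset.mem_filter, hT] at hq
        refine ⟨((hC q).1).trans (mul_le_mul_of_nonneg_left hq.1.2 hCpos.le), hq.2⟩
      have h8 : ((T1.image sp).card : ℝ) ≤ e * (C * X) := le_trans (by exact_mod_cast h7) hX1
      calc (T1.card : ℝ) ≤ K * ((T1.image sp).card : ℝ) := by exact_mod_cast h6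
        _ ≤ K * (e * (C * X)) := mul_le_mul_of_nonneg_left h8 hK0.le
        _ = K * (e * C) * X := by ring
        _ = c / 4 * X := by rw [hec]
    -- a chosen prime
    have hch : ∀ q : Quad F, ∃ v : Pr F, (¬ ∀ v ∈ P, v ∉ sp q) → v ∈ P ∧ v ∈ sp q := by
      intro q
      by_cases h6 : ∀ v ∈ P, v ∉ sp q
      · have hne : Nonempty (Pr F) ∨ IsEmpty (Pr F) := by
          rcases isEmpty_or_nonempty (Pr F) with h | h
          · exact Or.inr h
          · exact Or.inl h
        rcases hne with ⟨⟨v⟩⟩ | hemp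
        · exact ⟨v, fun h => absurd h6 h⟩
        · exfalso
          have : Summable (fun v : Q => (1 : ℝ) / (nm (v : Pr F) : ℝ)) := by
            have : IsEmpty Q := ⟨fun x => hemp.elim x.1⟩
            exact summable_empty
          exact hQ this
      · push Not at h6
        obtain ⟨v, hv, hv'⟩ := h6
        exact ⟨v, fun _ => ⟨hv, hv'⟩⟩
    choose vq hvq using hch
    obtain ⟨nq, hnq⟩ : ∃ nq : Quad F → Finset (Pr F), ∀ q, nq q = (sp q).erase (vq q) := ⟨_, fun _ => rfl⟩
    obtain ⟨key, hkey⟩ : ∃ key : Quad F → (Quad F ⧸ H) × Finset (Pr F),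
        ∀ q, key q = ((QuotientGroup.mk q : Quad F ⧸ H), nq q) := ⟨_, fun _ => rfl⟩
    obtain ⟨T3, hT3⟩ : ∃ T3 : Finset (Quad F),
        T3 = T2.filter (fun q => ∀ q' ∈ T2, key q' = key q → vq q' = vq q) := ⟨_, rfl⟩
    obtain ⟨T4, hT4⟩ : ∃ T4 : Finset (Quad F),
        T4 = T2.filter (fun q => ¬ ∀ q' ∈ T2, key q' = key q → vq q' = vq q) := ⟨_, rfl⟩
    have hsplit2 : T2.card = T3.card + T4.card := by
      rw [hT3, hT4, Finset.card_filter_add_card_filter_not]
    have hT2v : ∀ q ∈ T2, vq q ∈ P ∧ vq q ∈ sp q := by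
      intro q hq
      rw [hT2, Finset.mem_filter] at hq
      exact hvq q hq.2
    have hT2E : ∀ q ∈ T2, q ∈ E ∧ (condNorm q : ℝ) ≤ X := by
      intro q hq
      rw [hT2, Finset.mem_filter, hT] at hq
      exact hq.1
    -- lonely elements
    have hb3 : (T3.card : ℝ) ≤ c / 4 * X := by
      have h6 : T3.card ≤ K * (T3.image key).card := by
        refine Finset.card_le_mul_card_image T3 K fun a ha => ?_
        rw [Finset.mem_image] at ha
        obtain ⟨q0, hq0, rfl⟩ := ha
        have hq0' := hq0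
        rw [hT3, Finset.mem_filter] at hq0'
        refine le_trans (Finset.card_le_card ?_) (hfib T3 (sp q0))
        intro q hq
        rw [Finset.mem_filter] at hq ⊢
        refine ⟨hq.1, ?_⟩
        have hqT2 : q ∈ T2 := by
          have := hq.1
          rw [hT3, Finset.mem_filter] at this
          exact this.1
        have h7 : vq q = vq q0 := hq0'.2 q hqT2 hq.2
        have h8 : nq q = nq q0 := by
          have := hq.2
          rw [hkey, hkey, Prod.mk.injEq] at this
          exact this.2
        rw [hnq, hnq, h7] at h8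
        rw [← Finset.insert_erase (hT2v q0 hq0'.1).2, ← h8, ← h7,
          Finset.insert_erase (hT2v q hqT2).2]
      have h7 : (T3.image key).card ≤ m *
          ({s : Finset (Pr F) | (nrm s : ℝ) ≤ C * X / R}).ncard := by
        have hSf := hfin (C * X / R)
        have h8 : T3.image key ⊆ (Finset.univ : Finset (Quad F ⧸ H)) ×ˢ hSf.toFinset := by
          intro a ha
          rw [Finset.mem_image] at ha
          obtain ⟨q, hq, rfl⟩ := ha
          rw [hT3, Finset.mem_filter] at hq
          rw [hkey, Finset.mem_product]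
          refine ⟨Finset.mem_univ _, ?_⟩
          simp only [Set.Finite.mem_toFinset, Set.mem_ofPred_eq]
          have h9 := hT2v q hq.1
          have h10 : nrm (sp q) = nm (vq q) * nrm (nq q) := by
            rw [hnq]
            exact (Finset.mul_prod_erase (sp q) nm h9.2).symm
          have h11 : R < (nm (vq q) : ℝ) := (hP _ h9.1).2.2
          have h12 : (nrm (sp q) : ℝ) ≤ C * X :=
            ((hC q).1).trans (mul_le_mul_of_nonneg_left (hT2E q hq.1).2 hCpos.le)
          rw [le_div_iff₀ hRpos]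
          have h13 : (nrm (sp q) : ℝ) = (nm (vq q) : ℝ) * (nrm (nq q) : ℝ) := by
            rw [h10]; push_cast; ring
          have h14 : (0 : ℝ) ≤ (nrm (nq q) : ℝ) := Nat.cast_nonneg _
          nlinarith
        refine (Finset.card_le_card h8).trans ?_
        rw [Finset.card_product, Finset.card_univ, ← hm, Set.ncard_eq_toFinset_card _ hSf]
      have h8 : (({s : Finset (Pr F) | (nrm s : ℝ) ≤ C * X / R}).ncard : ℝ) ≤ C' * (C * X / R) :=
        hC' _ (by positivity)
      calc (T3.card : ℝ) ≤ K * ((T3.image key).card : ℝ) := by exact_mod_cast h6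
        _ ≤ K * (m * (({s : Finset (Pr F) | (nrm s : ℝ) ≤ C * X / R}).ncard : ℝ)) :=
            mul_le_mul_of_nonneg_left (by exact_mod_cast h7) hK0.le
        _ ≤ K * (m * (C' * (C * X / R))) :=
            mul_le_mul_of_nonneg_left (mul_le_mul_of_nonneg_left h8 hm0.le) hK0.le
        _ = K * (m * (C' * (C / R))) * X := by ring
        _ ≤ c / 4 * X := mul_le_mul_of_nonneg_right hRc hX0
    -- the others
    have hb4 : T4.card ≤ ∑ psi ∈ Y, count {q : Quad F | q ∈ E ∧ q * psi ∈ E} X := by
      have hsub : T4 ⊆ Y.biUnion (fun psi => T.filter (fun q => q * psi ∈ E)) := by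
        intro q hq
        rw [hT4, Finset.mem_filter] at hq
        obtain ⟨hq2, hq3⟩ := hq
        push Not at hq3
        obtain ⟨q', hq', hk, hne⟩ := hq3
        rw [Finset.mem_biUnion]
        have hv := hT2v q hq2
        have hv' := hT2v q' hq'
        rw [hkey, hkey, Prod.mk.injEq] at hk
        refine ⟨q * q', ?_, ?_⟩
        · rw [hY]
          refine ⟨?_, vq q, hv.1, vq q', hv'.1, fun h => hne h.symm, ?_⟩
          · have h6 : (q')⁻¹ * q ∈ H := QuotientGroup.eq.1 hk.1
            have h7 : (q')⁻¹ = q' := by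
              rw [inv_eq_iff_mul_eq_one]; exact hsq q'
            have h8 : q * q' = (q')⁻¹ * q := by
              rw [h7]; exact mul_comm q q'
            rw [h8]
            exact h6
          · ext u
            rw [hmul, Finset.mem_insert, Finset.mem_singleton]
            have h8 : ∀ u, u ∈ sp q ↔ u = vq q ∨ u ∈ nq q := by
              intro u
              rw [hnq, Finset.mem_erase]
              constructor
              · intro hu
                by_cases h : u = vq q
                · exact Or.inl h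
                · exact Or.inr ⟨h, hu⟩
              · rintro (rfl | h)
                · exact hv.2
                · exact h.2
            have h9 : ∀ u, u ∈ sp q' ↔ u = vq q' ∨ u ∈ nq q := by
              intro u
              rw [← hk.2, hnq, Finset.mem_erase]
              constructor
              · intro hu
                by_cases h : u = vq q'
                · exact Or.inl h
                · exact Or.inr ⟨h, hu⟩
              · rintro (rfl | h)
                · exact hv'.2
                · exact h.2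
            have h10 : vq q ∉ nq q := by rw [hnq]; simp
            have h11 : vq q' ∉ nq q := by rw [← hk.2, hnq]; simp
            rw [h8, h9]
            constructor
            · intro h
              by_contra hcon
              push Not at hcon
              apply h
              constructor
              · rintro (h' | h')
                · exact absurd h' hcon.1
                · exact Or.inr h'
              · rintro (h' | h')
                · exact absurd h' hcon.2
                · exact Or.inr h'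
            · rintro (rfl | rfl) h
              · rcases h.1 (Or.inl rfl) with h' | h'
                · exact hne h'.symm
                · exact h10 h'
              · rcases h.2 (Or.inl rfl) with h' | h'
                · exact hne h'
                · exact h11 h'
        · rw [Finset.mem_filter, hT]
          refine ⟨hT2E q hq2, ?_⟩
          have h6 : q * (q * q') = q' := by
            rw [← mul_assoc, hsq]; exact one_mul q'
          rw [h6]
          exact (hT2E q' hq').1
      refine (Finset.card_le_card hsub).trans (Finset.card_biUnion_le.trans ?_)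
      refine Finset.sum_le_sum fun psi _ => ?_
      unfold count
      rw [← Set.ncard_coe_finset]
      refine Set.ncard_le_ncard ?_ ((hfc X).subset fun q hq => hq.2)
      intro q hq
      simp only [Finset.coe_filter, Set.mem_ofPred_eq, hT] at hq
      exact ⟨⟨hq.1.1, hq.2⟩, hq.1.2⟩
    have hb4' : (T4.card : ℝ) ≤ ∑ psi ∈ Y, (count {q : Quad F | q ∈ E ∧ q * psi ∈ E} X : ℝ) := by
      exact_mod_cast hb4
    have h15 : (count E X : ℝ) = (T1.card : ℝ) + ((T3.card : ℝ) + (T4.card : ℝ)) := by
      rw [hTcard, hsplit, hsplit2]; push_cast; ring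
    rw [h15]
    linarith
  -- pigeonhole
  have hfr2 : ∃ᶠ X : ℝ in atTop, c / 2 * X ≤
      ∑ psi ∈ Y, (count {q : Quad F | q ∈ E ∧ q * psi ∈ E} X : ℝ) := by
    refine (hfr.and_eventually key).mono ?_
    rintro X ⟨h6, h7⟩
    linarith
  obtain ⟨psi, hpsi, d, hd, hdf⟩ := pigeon Y
    (fun psi X => (count {q : Quad F | q ∈ E ∧ q * psi ∈ E} X : ℝ)) (c / 2) (by positivity) hfr2
  rw [hY] at hpsi
  obtain ⟨hpH, v, hv, w, hw, hvw, hs⟩ := hpsi
  refine ⟨psi, v, w, hpH, hvw, (hP v hv).1, (hP w hw).1, (hP v hv).2.1, (hP w hw).2.1, ?_,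
    ⟨d, hd, hdf⟩⟩
  ext u
  rw [Set.mem_ofPred_eq, ← hsp, hs]
  simp

end Pool.Agent.Lib.MP_50bb2e_nt.MT.H74
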